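import Mathlib
import Pool.Agent.Helper996.StrangeClosure

/-!
# MP_af815a_al: groups of singular strong limit cardinality have admissible subsets of full size
-/

namespace Pool.Agent.Results.MP_af815a_al.SingularStrongLimit

open Cardinal

universe u

/-- `H` is admissible: for `x, y, z ∈ H` the equation `x⁻¹ y = y⁻¹ z` forces `x = z`. -/
def Admissible {G : Type u} [Group G] (H : Set G) : Prop :=
  ∀ x ∈ H, ∀ y ∈ H, ∀ z ∈ H, x⁻¹ * y = y⁻¹ * z → x = z

/-- Every group whose cardinality is a singular strong limit cardinal has an admissible subset of
the same cardinality as the group. -/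
theorem result (G : Type u) [Group G] (hs : (#G).IsStrongLimit) (hsing : (#G).IsSingular) :
    ∃ H : Set G, Admissible H ∧ #H = #G :=
  Helper996.Strange.good_of_singular (G := G) hs hsing

end Pool.Agent.Results.MP_af815a_al.SingularStrongLimit
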