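import Mathlib
import Pool.Agent.Helper996.StrangeClass

/-!
# MP_af815a_al: a class of groups with admissible subsets of full size
-/

namespace Pool.Agent.Results.MP_af815a_al.TameClass

open Cardinal

universe u

/-- `H` is admissible: for `x, y, z ∈ H` the equation `x⁻¹ y = y⁻¹ z` forces `x = z`. -/
def Admissible {G : Type u} [Group G] (H : Set G) : Prop :=
  ∀ x ∈ H, ∀ y ∈ H, ∀ z ∈ H, x⁻¹ * y = y⁻¹ * z → x = z

/-- The solution sets in `G` of systems of equations `z x⁻¹ z = y` (with `x, y ∈ G`) satisfy the
descending chain condition. -/
def ChainCondition (G : Type u) [Group G] : Prop :=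
  ∀ x y : ℕ → G, ∃ n, ∀ z : G, (∀ i < n, z * (x i)⁻¹ * z = y i) → z * (x n)⁻¹ * z = y n

/-- The smallest class of groups that contains the groups with the chain condition, the groups with
fewer than `κ` elements, and the groups in which every nontrivial element has fewer than `κ` square
roots, and is closed under extensions and under unions of fewer than `κ` subgroups. -/
inductive Tame (κ : Cardinal.{u}) : (G : Type u) → Group G → Prop
  | small (G : Type u) [inst : Group G] : #G < κ → Tame κ G inst
  | roots (G : Type u) [inst : Group G] :
      (∀ a : G, a ≠ 1 → #{v : G | v * v = a} < κ) → Tame κ G inst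
  | chain (G : Type u) [inst : Group G] : ChainCondition G → Tame κ G inst
  | ext (G : Type u) [inst : Group G] (N : Subgroup G) [N.Normal] :
      Tame κ N inferInstance → Tame κ (G ⧸ N) inferInstance → Tame κ G inst
  | union (G : Type u) [inst : Group G] (ι : Type u) (K : ι → Subgroup G) :
      #ι < κ → (∀ g : G, ∃ i, g ∈ K i) → (∀ i, Tame κ (K i) inferInstance) → Tame κ G inst

theorem her_of_tame {κ : Cardinal.{u}} (hκ : κ.IsRegular) (G : Type u) (inst : Group G)
    (h : Tame κ G inst) : Helper996.Strange.Her κ G := by
  induction h with
  | small G h => exact Helper996.Strange.her_of_small h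
  | roots G h => exact Helper996.Strange.her_of_roots hκ h
  | chain G h => exact Helper996.Strange.her_of_chain hκ h
  | ext G N _ _ ih1 ih2 => exact Helper996.Strange.her_ext hκ N ih1 ih2
  | union G ι K hι hK _ ih => exact Helper996.Strange.her_union hκ ι hι K hK ih

/-- For a regular cardinal `κ`: every subset of cardinality `κ` of a group in the class `Tame κ` has
an admissible subset of cardinality `κ`. The class contains all abelian groups and all groups of
matrices over Noetherian commutative rings. -/
theorem result (κ : Cardinal.{u}) (hκ : κ.IsRegular) :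
    (∀ (G : Type u) (inst : Group G), Tame κ G inst → ∀ X : Set G, #X = κ →
      ∃ H ⊆ X, Admissible H ∧ #H = κ) ∧
    (∀ (G : Type u) (inst : Group G), (∀ a b : G, a * b = b * a) → Tame κ G inst) ∧
    (∀ (G : Type u) (inst : Group G) (R : Type u) [CommRing R] [IsNoetherianRing R] (m : ℕ)
      (φ : G →* Matrix (Fin m) (Fin m) R), Function.Injective φ → Tame κ G inst) := by
  refine ⟨?_, ?_, ?_⟩
  · intro G inst h X hX
    exact her_of_tame hκ G inst h X hX
  · intro G inst h
    exact Tame.chain G (Helper996.Strange.chain_of_comm h)
  · intro G inst R _ _ m φ hφ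
    exact Tame.chain G (Helper996.Strange.chain_of_linear φ hφ)

end Pool.Agent.Results.MP_af815a_al.TameClass
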